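import Mathlib

/-!
Project BM of helper93 (MP_58ffb3_an, specialist row): weak-* convergence of the Bergman measures
does not imply the log-asymptotics of the Bergman functions (answer NO, `n = 1`, `K` the unit
circle, `ν = ∑ c_i σ_i`, `σ_i` uniform on the `2^i`-th roots of unity, `c_i = exp(-100 2^i)`).
Statements of the lemma jobs, with proofs in the docstrings.
-/

set_option autoImplicit false

open MeasureTheory Set Filter Topology Polynomial

namespace Pool.Agent.Q93.BM

/-- Subharmonic functions on `ℂ` with values in `[-∞, ∞)`: upper semicontinuous, and `u(z)` is at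
most the mean over the circle `|ζ - z| = r` of every continuous function `g ≥ u` (by upper
semicontinuity this is the sub-mean value property). -/
structure IsSubharmonic (u : ℂ → EReal) : Prop where
  lt_top : ∀ z, u z < ⊤
  usc : UpperSemicontinuous u
  submean : ∀ (z : ℂ) (r : ℝ), 0 < r → ∀ g : ℂ → ℝ, Continuous g →
    (∀ ζ, ‖ζ - z‖ = r → u ζ ≤ (g ζ : EReal)) → u z ≤ ((Real.circleAverage g z r : ℝ) : EReal)

/-- The Siciak-Zaharjuta extremal function of a set `K ⊂ ℂ`. -/
noncomputable def VK (K : Set ℂ) (z : ℂ) : EReal :=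
  ⨆ (u : ℂ → EReal) (_ : IsSubharmonic u ∧
    (∃ C : ℝ, ∀ ζ, u ζ ≤ ((Real.posLog ‖ζ‖ + C : ℝ) : EReal)) ∧ ∀ ζ ∈ K, u ζ ≤ 0), u z

/-- `e` is an orthonormal basis of the space of polynomials of degree at most `k` in `L²(ν)`. -/
structure IsONB (ν : Measure ℂ) (k : ℕ) (e : Fin (k + 1) → ℂ[X]) : Prop where
  deg : ∀ i, (e i).natDegree ≤ k
  orth : ∀ i j, ∫ z, star ((e i).eval z) * (e j).eval z ∂ν = if i = j then 1 else 0

/-- The Bergman function. -/
noncomputable def BF {k : ℕ} (e : Fin (k + 1) → ℂ[X]) (z : ℂ) : ℝ := ∑ i, ‖(e i).eval z‖ ^ 2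

/-- The weights. -/
noncomputable def cc (i : ℕ) : ℝ := Real.exp (-(100 * 2 ^ i))

/-- The `2^i`-th roots of unity. -/
noncomputable def La (i : ℕ) : Finset ℂ := nthRootsFinset (2 ^ i) (1 : ℂ)

/-- The uniform probability on the `2^i`-th roots of unity. -/
noncomputable def sig (i : ℕ) : Measure ℂ := (2 ^ i : ENNReal)⁻¹ • ∑ x ∈ La i, Measure.dirac x

/-- The measure of the counterexample. -/
noncomputable def nu : Measure ℂ := Measure.sum fun i => ENNReal.ofReal (cc i) • sig i

/-- Job VK.  The extremal function of the unit circle is `log⁺ |z|`.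

`≥`: `u z = log⁺ |z|` (cast to `EReal`) is admissible.  Sub-mean value property: for continuous `g`
with `log⁺ |ζ| ≤ g ζ` on the circle `|ζ - z| = r`: the mean of `g` is at least the mean of `log⁺ |ζ|`
(`Real.circleAverage_mono_on...`), which is at least `0` and at least the mean of `log |ζ|`, which is
at least `log |z|` (Mathlib `Mathlib/Analysis/SpecialFunctions/Integrals/PosLogEqCircleAverage.lean`:
`circleAverage_log_norm_sub_const_eq_log_radius_add_posLog` with `a = 0`: the mean is
`log r + log⁺ (|z| / r) = max (log r) (log |z|)`).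

`≤`: let `u` be admissible.  (i) MAXIMUM PRINCIPLE: if `u` is subharmonic and `G` is open with
compact closure, `u ≤ M` on `frontier G`, then `u ≤ M` on `G`.  Proof: `u` (usc) attains its maximum
`m` over the compact `closure G`; suppose `m > M`; the set `A` of maximum points in `closure G` is
closed, compact, inside `G`; take a point `z ∈ A` with maximal real part (compactness) and a small
circle around `z` inside `G`: on the circle `u ≤ m`, and `u < m` on the right half of the circle, so
by upper semicontinuity there is a continuous `g ≥ u` on the circle with mean `< m` (for example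
`g = m` except near one point `ζ₀` of the circle with `u ζ₀ < m`, where usc gives `u < m - η` on a
neighbourhood: `g = m - η * bump`); the sub-mean inequality gives `m = u z < m`.  (Alternative: any
other proof.)
(ii) `|z| ≤ 1`: apply (i) to the unit disc and `M = 0`.
(iii) `|z| > 1`: for `ε > 0` the function `u(ζ) - (1+ε) log |ζ|` tends to `-∞` at infinity, is
`≤ 0` on `|ζ| = 1`, and satisfies the local sub-mean value property on `|ζ| > 1`
(`log |ζ|` is harmonic there: for closed discs not containing `0` the mean of `log |ζ|` is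
`log |z|`).  The argument of (i) on `1 < |ζ| < R` gives `u ≤ (1+ε) log |z|`; let `ε → 0`.
It is convenient to prove (i) directly for functions `u - h` with `h` continuous on `closure G` and
mean value property for small circles (small circles are enough in the proof of (i)). -/
def S_VK : Prop := ∀ z : ℂ,
  VK (Metric.sphere (0 : ℂ) 1) z = ((Real.posLog ‖z‖ : ℝ) : EReal)

open Laplacian in
/-- Job GREEN.  Normalised arc length is `dd^c log⁺ |z|`.

Proof: `log⁺ |z| = mean over |a| = 1 of log |z - a|` (Mathlib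
`circleAverage_log_norm_sub_const_eq_posLog`), `(2π)⁻¹ ∫ log |z - a| Δφ(z) dA(z) = φ(a)` (fundamental
solution; look in the pool for it: tools/search.py, or
prove it) and Fubini (`|log |z-a|| |Δφ(z)|` is integrable on the product with the circle as `Δφ` is
bounded with compact support).  Alternative without the fundamental solution: polar coordinates,
`m(r) = mean of φ over |z| = r`, `(r m'(r))' = r * mean of Δφ`, so
`(2π)⁻¹ ∫ log⁺|z| Δφ = ∫_1^∞ log r (r m')' dr = - ∫_1^∞ m' dr = m(1)`. -/
def S_GREEN : Prop := ∀ φ : ℂ → ℝ, ContDiff ℝ (⊤ : ℕ∞) φ → HasCompactSupport φ →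
  Real.circleAverage φ 0 1 = (2 * Real.pi)⁻¹ * ∫ z, Real.posLog ‖z‖ * Δ φ z

/-- Job ONB.  Existence of orthonormal bases.

Proof: `P_k` (`Polynomial.degreeLT ℂ (k+1)`, dimension `k+1`) embeds linearly and injectively into
`Lp ℂ 2 ν` (polynomials are bounded on the circle; injective by the second hypothesis).  Take
`stdOrthonormalBasis` of the image (a `k+1`-dimensional subspace) and pull it back.  Or use
`InnerProductSpace.ofCore` on `degreeLT`. -/
def S_ONB : Prop := ∀ (ν : Measure ℂ), IsFiniteMeasure ν → ν (Metric.sphere (0 : ℂ) 1)ᶜ = 0 →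
  (∀ p : ℂ[X], ∫ z, ‖p.eval z‖ ^ 2 ∂ν = 0 → p = 0) → ∀ k, ∃ e, IsONB ν k e

/-- Job WEAK.  From the moments to all continuous functions.

Proof: the measures `F_k ν / (k+1)` are probability measures on the circle, so for every polynomial
`P(z, z̄) = ∑ a_m z^m` (`m ∈ ℤ`, finitely many, on the circle) `∫ P F_k dν / (k+1) → a_0` (for
negative `m` take complex conjugates: `F_k` is real).  Trigonometric polynomials are uniformly dense in
`C(AddCircle)` (`span_fourier_closure_eq_top`), so for continuous `φ` and `ε > 0` there is a trigonometric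
polynomial with `|φ - P| ≤ ε` on the unit circle; then
`|∫ φ F_k dν/(k+1) - mean φ| ≤ 2 ε + |∫ P F_k dν/(k+1) - a_0|`, `a_0 = mean P`. -/
def S_WEAK : Prop := ∀ (ν : Measure ℂ), IsFiniteMeasure ν → ν (Metric.sphere (0 : ℂ) 1)ᶜ = 0 →
  ∀ F : ℕ → ℂ → ℝ, (∀ k, Continuous (F k)) → (∀ k z, 0 ≤ F k z) →
  (∀ k, ∫ z, F k z ∂ν = k + 1) →
  (∀ m : ℕ, 0 < m → Tendsto (fun k : ℕ => (∫ z, z ^ m * (F k z : ℂ) ∂ν) / ((k : ℂ) + 1)) atTop
    (𝓝 0)) →
  ∀ φ : ℂ → ℝ, Continuous φ → Tendsto (fun k : ℕ => (∫ z, φ z * F k z ∂ν) / ((k : ℝ) + 1)) atTop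
    (𝓝 (Real.circleAverage φ 0 1))

/-- Job NU.  Elementary facts on the measure `nu`.

`cc` is summable, `∑_{i>j} cc i ≤ 2 cc (j+1)` (`cc (i+1) ≤ cc i / 2`); each `sig i` is a probability
measure on the `2^i`-th roots of unity; `La j ⊆ La i` for `j ≤ i`, so `sig i (La jᶜ) = 0` for
`i ≤ j`.  Rotation: for `i > j` and `w ∈ La j` multiplication by `w` permutes `La i`, so `sig i` is
invariant; for `i ≤ j` both integrals of `f` against `sig i` vanish as `f = 0` on `La j ⊇ La i` and
`w La j = La j`.  (Write integrals against `Measure.sum` as `HasSum`, `f` is bounded on the circle by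
continuity.)  Definiteness: if `∫ |p|² dν = 0` then `p` vanishes at all `2^i`-th roots of unity for
all `i` (each has positive mass), infinitely many points. -/
def S_NU : Prop := IsFiniteMeasure nu ∧ nu (Metric.sphere (0 : ℂ) 1)ᶜ = 0 ∧
  (∀ j, ∀ x ∈ La j, cc j / 2 ^ j ≤ nu.real {x}) ∧
  (∀ j, nu.real ((La j : Set ℂ)ᶜ) ≤ 2 * cc (j + 1)) ∧
  (∀ j, ∀ w ∈ La j, ∀ f : ℂ → ℂ, Continuous f → (∀ x ∈ La j, f x = 0) →
    ∫ z, f (w * z) ∂nu = ∫ z, f z ∂nu) ∧
  ∀ p : ℂ[X], ∫ z, ‖p.eval z‖ ^ 2 ∂nu = 0 → p = 0

end Pool.Agent.Q93.BM
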