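import Pool.Agent.Q93.BM.Mom

set_option autoImplicit false

open MeasureTheory Set Filter Topology Polynomial

namespace Pool.Agent.Q93.BM

open Laplacian in
/-- The equilibrium measure of a compact set `K ⊂ ℂ` with continuous `V_K`: the probability
measure `dd^c V_K = (2π)⁻¹ Δ V_K` (in the sense of distributions). -/
structure IsEquilibrium (K : Set ℂ) (μ : Measure ℂ) : Prop where
  prob : IsProbabilityMeasure μ
  ddc : ∀ φ : ℂ → ℝ, ContDiff ℝ (⊤ : ℕ∞) φ → HasCompactSupport φ →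
    ∫ z, φ z ∂μ = (2 * Real.pi)⁻¹ * ∫ z, (VK K z).toReal * Δ φ z

/-- Property (S): the measures `B_k ν / (k + 1)` converge weak-* to the equilibrium measure. -/
def PropS (K : Set ℂ) (ν : Measure ℂ) : Prop :=
  ∃ μ, IsEquilibrium K μ ∧ ∀ e : ∀ k, Fin (k + 1) → ℂ[X], (∀ k, IsONB ν k (e k)) →
    ∀ φ : ℂ → ℝ, Continuous φ →
      Tendsto (fun k : ℕ => (∫ z, φ z * BF (e k) z ∂ν) / ((k : ℝ) + 1)) atTop (𝓝 (∫ z, φ z ∂μ))

/-- Property (W): `(2k)⁻¹ log B_k` converges to `V_K` locally uniformly. -/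
def PropW (K : Set ℂ) (ν : Measure ℂ) : Prop :=
  ∀ e : ∀ k, Fin (k + 1) → ℂ[X], (∀ k, IsONB ν k (e k)) →
    TendstoLocallyUniformly (fun (k : ℕ) z => Real.log (BF (e k) z) / (2 * (k : ℝ)))
      (fun z => (VK K z).toReal) atTop

/-- Normalised arc length on the unit circle. -/
noncomputable def arc : Measure ℂ :=
  ENNReal.ofReal (2 * Real.pi)⁻¹ • (volume.restrict (Ioc 0 (2 * Real.pi))).map (circleMap 0 1)

lemma integral_arc {φ : ℂ → ℝ} (hφ : Continuous φ) :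
    ∫ z, φ z ∂arc = Real.circleAverage φ 0 1 := by
  rw [arc, integral_smul_measure, integral_map (continuous_circleMap 0 1).measurable.aemeasurable
    hφ.aestronglyMeasurable, Real.circleAverage, intervalIntegral.integral_of_le
    Real.two_pi_pos.le, ENNReal.toReal_ofReal (by positivity)]

lemma arc_prob : IsProbabilityMeasure arc := by
  refine ⟨?_⟩
  rw [arc, Measure.smul_apply, Measure.map_apply (continuous_circleMap 0 1).measurable
    MeasurableSet.univ, preimage_univ, Measure.restrict_apply_univ, Real.volume_Ioc, sub_zero,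
    smul_eq_mul, ← ENNReal.ofReal_mul (by positivity), inv_mul_cancel₀ Real.two_pi_pos.ne',
    ENNReal.ofReal_one]

lemma cc_pos (i : ℕ) : 0 < cc i := Real.exp_pos _

lemma small (j : ℕ) : 2 * ((2 ^ j : ℕ) : ℝ) * ((2 * cc (j + 1)) / (cc j / 2 ^ j)) ≤ 1 := by
  have h2 : (0 : ℝ) < 2 ^ j := by positivity
  have h1 : cc (j + 1) = cc j * Real.exp (-(100 * 2 ^ j)) := by
    rw [cc, cc, ← Real.exp_add]
    congr 1
    rw [pow_succ]; ring
  have h3 : 2 * ((2 ^ j : ℕ) : ℝ) * ((2 * cc (j + 1)) / (cc j / 2 ^ j)) =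
      4 * (2 ^ j) ^ 2 * Real.exp (-(100 * 2 ^ j)) := by
    rw [h1]
    have := (cc_pos j).ne'
    push_cast
    field_simp
    ring
  rw [h3, Real.exp_neg, ← div_eq_mul_inv, div_le_one (Real.exp_pos _)]
  have h4 := Real.pow_div_factorial_le_exp (100 * 2 ^ j : ℝ) (by positivity) 2
  refine le_trans ?_ h4
  rw [mul_pow]
  norm_num [Nat.factorial]
  nlinarith [sq_nonneg ((2 : ℝ) ^ j)]

/-- The moments of the Bergman measures are bounded. -/
lemma moment_nu (hNU : S_NU) {k m : ℕ} (hm : 0 < m) (hk : 2 * m ≤ k) {e : Fin (k + 1) → ℂ[X]}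
    (he : IsONB nu k e) : ‖∫ z, z ^ m * (BF e z : ℂ) ∂nu‖ ≤ 1 := by
  obtain ⟨hfin, hsup, hat, hout, hrot, -⟩ := hNU
  have hk0 : k ≠ 0 := by omega
  set j := Nat.log 2 k with hj
  have h1 : 2 ^ j ≤ k := Nat.pow_log_le_self 2 hk0
  have h2 : k < 2 ^ (j + 1) := Nat.lt_pow_succ_log_self (by norm_num) k
  have h3 : m < 2 ^ j := by rw [pow_succ] at h2; omega
  refine (moment (ν := nu) hsup he (N := 2 ^ j) (by positivity) (by omega)
    (w := cc j / 2 ^ j) (δ := 2 * cc (j + 1)) (div_pos (cc_pos j) (by positivity))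
    (fun x hx => hat j x hx) (hout j) (fun w hw f hf hf0 => hrot j w hw f hf hf0) hm h3).trans ?_
  exact small j

/-- The Bergman functions are huge at the origin along `k = 2^j`. -/
lemma lower_nu (hNU : S_NU) (j N : ℕ) (hN : N = 2 ^ j) {e : Fin (N + 1) → ℂ[X]}
    (he : IsONB nu N e) : 10 ≤ Real.log (BF e 0) / (2 * (N : ℝ)) := by
  obtain ⟨hfin, hsup, hat, hout, hrot, -⟩ := hNU
  have hN0 : 0 < N := by rw [hN]; positivity
  have h1 := extremal (ν := nu) hsup he (X ^ N - 1) (by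
    refine (natDegree_sub_le _ _).trans ?_
    simp) 0
  have h2 : ‖((X ^ N - 1 : ℂ[X])).eval 0‖ ^ 2 = 1 := by
    simp [hN0.ne']
  rw [h2] at h1
  have hcont : Continuous fun z : ℂ => ‖((X ^ N - 1 : ℂ[X])).eval z‖ ^ 2 :=
    ((X ^ N - 1 : ℂ[X])).continuous.norm.pow 2
  have hi := int_cont hsup hcont
  have h3 := split_int (La j) hi
  have h4 : ∑ x ∈ La j, nu.real {x} • ‖((X ^ N - 1 : ℂ[X])).eval x‖ ^ 2 = 0 := by
    refine Finset.sum_eq_zero fun x hx => ?_
    have hx1 : x ^ N = 1 := by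
      rw [hN]
      exact (mem_nthRootsFinset (by positivity) 1).1 hx
    simp [hx1]
  have h5 : ∫ z in (La j : Set ℂ)ᶜ, ‖((X ^ N - 1 : ℂ[X])).eval z‖ ^ 2 ∂nu ≤
      4 * (2 * cc (j + 1)) := by
    have h6 : ∀ᵐ z ∂(nu.restrict (La j : Set ℂ)ᶜ), ‖((X ^ N - 1 : ℂ[X])).eval z‖ ^ 2 ≤ 4 := by
      refine ae_restrict_of_ae ?_
      have h7 : ∀ᵐ z ∂nu, z ∈ Metric.sphere (0 : ℂ) 1 := by rw [ae_iff]; exact hsup
      filter_upwards [h7] with z hz
      have hz1 : ‖z‖ = 1 := by simpa using hz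
      have h8 : ‖((X ^ N - 1 : ℂ[X])).eval z‖ ≤ 2 := by
        simp only [eval_sub, eval_pow, eval_X, eval_one]
        refine (norm_sub_le _ _).trans ?_
        rw [norm_pow, hz1, one_pow, norm_one]; norm_num
      calc _ ≤ (2 : ℝ) ^ 2 := pow_le_pow_left₀ (norm_nonneg _) h8 2
        _ = 4 := by norm_num
    calc ∫ z in (La j : Set ℂ)ᶜ, ‖((X ^ N - 1 : ℂ[X])).eval z‖ ^ 2 ∂nu
        ≤ ∫ z in (La j : Set ℂ)ᶜ, (4 : ℝ) ∂nu :=
          integral_mono_ae hi.integrableOn (integrable_const _) h6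
      _ = nu.real ((La j : Set ℂ)ᶜ) * 4 := by simp
      _ ≤ 2 * cc (j + 1) * 4 := mul_le_mul_of_nonneg_right (hout j) (by norm_num)
      _ = 4 * (2 * cc (j + 1)) := by ring
  rw [h4, zero_add] at h3
  rw [h3] at h1
  have hB := BF_nonneg e 0
  have h6 : 1 ≤ 8 * cc (j + 1) * BF e 0 := by
    refine h1.trans (mul_le_mul_of_nonneg_right ?_ hB)
    linarith
  have hc := cc_pos (j + 1)
  have h7 : (8 * cc (j + 1))⁻¹ ≤ BF e 0 := by
    rw [inv_le_iff_one_le_mul₀ (by positivity)]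
    linarith
  have h8 := Real.log_le_log (by positivity) h7
  rw [Real.log_inv, Real.log_mul (by norm_num) hc.ne', cc, Real.log_exp] at h8
  have h9 : Real.log 8 ≤ 3 := by
    have : (8 : ℝ) = 2 ^ 3 := by norm_num
    rw [this, Real.log_pow]
    have := Real.log_two_lt_d9
    push_cast
    linarith
  have hN1 : (1 : ℝ) ≤ (N : ℝ) := by exact_mod_cast hN0
  have h10 : (2 : ℝ) ^ (j + 1) = 2 * (N : ℝ) := by rw [pow_succ, hN]; push_cast; ring
  rw [le_div_iff₀ (by positivity)]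
  rw [h10] at h8
  linarith

theorem final (hVK : S_VK) (hGR : S_GREEN) (hONB : S_ONB) (hWEAK : S_WEAK) (hNU : S_NU) :
    ∃ (K : Set ℂ) (ν : Measure ℂ), IsCompact K ∧ (∀ z, VK K z ≠ ⊤ ∧ VK K z ≠ ⊥) ∧
      Continuous (fun z => (VK K z).toReal) ∧ IsFiniteMeasure ν ∧ ν Kᶜ = 0 ∧
      (∀ p : ℂ[X], ∫ z, ‖p.eval z‖ ^ 2 ∂ν = 0 → p = 0) ∧ (∀ k, ∃ e, IsONB ν k e) ∧
      PropS K ν ∧ ¬ PropW K ν := by
  have hNU' := hNU
  obtain ⟨hfin, hsup, hat, hout, hrot, hdef⟩ := hNU'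
  have hE := hONB nu hfin hsup hdef
  have hVr : ∀ z, (VK (Metric.sphere (0 : ℂ) 1) z).toReal = Real.posLog ‖z‖ := by
    intro z; rw [hVK z, EReal.toReal_coe]
  have hcont : Continuous fun z : ℂ => Real.posLog ‖z‖ :=
    Real.continuous_posLog.comp continuous_norm
  refine ⟨Metric.sphere (0 : ℂ) 1, nu, isCompact_sphere _ _, fun z => ?_, ?_, hfin, hsup, hdef,
    hE, ?_, ?_⟩
  · rw [hVK z]; exact ⟨EReal.coe_ne_top _, EReal.coe_ne_bot _⟩
  · simp only [hVr]; exact hcont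
  · refine ⟨arc, ⟨arc_prob, fun φ hφ hc => ?_⟩, fun e he φ hφ => ?_⟩
    · rw [integral_arc hφ.continuous, hGR φ hφ hc]
      simp only [hVr]
    · rw [integral_arc hφ]
      refine hWEAK nu hfin hsup (fun k => BF (e k)) (fun k => BF_cont _)
        (fun k z => BF_nonneg _ z) (fun k => integral_BF hsup (he k)) (fun m hm => ?_) φ hφ
      refine squeeze_zero_norm' (a := fun k : ℕ => 1 / ((k : ℝ) + 1)) ?_
        tendsto_one_div_add_atTop_nhds_zero_nat
      filter_upwards [eventually_ge_atTop (2 * m)] with k hk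
      have h1 := moment_nu hNU hm hk (he k)
      have h2 : ‖((k : ℂ) + 1)‖ = (k : ℝ) + 1 := by
        have : ((k : ℂ) + 1) = ((k + 1 : ℕ) : ℂ) := by push_cast; rfl
        rw [this, Complex.norm_natCast]; push_cast; rfl
      rw [norm_div, h2]
      exact div_le_div_of_nonneg_right h1 (by positivity)
  · intro hW
    choose e he using hE
    have h1 := (tendstoLocallyUniformlyOn_univ.2 (hW e he)).tendsto_at (mem_univ (0 : ℂ))
    have h2 : Tendsto (fun j : ℕ => 2 ^ j) atTop (atTop : Filter ℕ) :=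
      tendsto_pow_atTop_atTop_of_one_lt (by norm_num)
    have h3 := h1.comp h2
    rw [hVr, norm_zero, Real.posLog_zero] at h3
    have h4 : (10 : ℝ) ≤ 0 := by
      refine ge_of_tendsto' h3 fun j => ?_
      exact lower_nu hNU j _ rfl (he (2 ^ j))
    linarith

end Pool.Agent.Q93.BM
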