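import Pool.Agent.Q93.BM.Stm

set_option autoImplicit false

open MeasureTheory Set Filter Topology Polynomial
open scoped InnerProductSpace ComplexConjugate

namespace Pool.Agent.Q93.BM

/-- Continuous functions are integrable. -/
lemma int_cont {F : Type*} [NormedAddCommGroup F] {ν : Measure ℂ} [IsFiniteMeasure ν]
    (hν : ν (Metric.sphere (0 : ℂ) 1)ᶜ = 0) {f : ℂ → F} (hf : Continuous f)
    [SecondCountableTopologyEither ℂ F] : Integrable f ν := by
  obtain ⟨C, hC⟩ := (isCompact_sphere (0 : ℂ) 1).exists_bound_of_continuousOn hf.continuousOn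
  refine Integrable.of_bound hf.aestronglyMeasurable C ?_
  have h1 : ∀ᵐ z ∂ν, z ∈ Metric.sphere (0 : ℂ) 1 := by
    rw [ae_iff]
    exact hν
  filter_upwards [h1] with z hz
  exact hC z hz

variable {ν : Measure ℂ} [hfin : IsFiniteMeasure ν] (hν : ν (Metric.sphere (0 : ℂ) 1)ᶜ = 0)
  {k : ℕ} {e : Fin (k + 1) → ℂ[X]} (he : IsONB ν k e)

/-- The Hilbert space of coordinates. -/
abbrev HH (k : ℕ) := EuclideanSpace ℂ (Fin (k + 1))

/-- The polynomial with the given coordinates. -/
noncomputable def pol (e : Fin (k + 1) → ℂ[X]) (c : HH k) : ℂ[X] := ∑ i, c i • e i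

/-- The evaluation. -/
noncomputable def evf (e : Fin (k + 1) → ℂ[X]) (c : HH k) (z : ℂ) : ℂ := (pol e c).eval z

lemma evf_eq (e : Fin (k + 1) → ℂ[X]) (c : HH k) (z : ℂ) :
    evf e c z = ∑ i, c i * (e i).eval z := by
  simp [evf, pol, eval_finset_sum]

/-- The vector of the evaluation at `z`. -/
noncomputable def vv (e : Fin (k + 1) → ℂ[X]) (z : ℂ) : HH k :=
  WithLp.toLp 2 fun i => star ((e i).eval z)

lemma vv_apply (e : Fin (k + 1) → ℂ[X]) (z : ℂ) (i : Fin (k + 1)) :
    vv e z i = star ((e i).eval z) := rfl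

lemma inner_vv (e : Fin (k + 1) → ℂ[X]) (z : ℂ) (c : HH k) : ⟪vv e z, c⟫_ℂ = evf e c z := by
  rw [PiLp.inner_apply, evf_eq]
  refine Finset.sum_congr rfl fun i _ => ?_
  rw [vv_apply]
  simp

lemma norm_vv (e : Fin (k + 1) → ℂ[X]) (z : ℂ) : ‖vv e z‖ ^ 2 = BF e z := by
  rw [EuclideanSpace.norm_sq_eq, BF]
  refine Finset.sum_congr rfl fun i _ => ?_
  rw [vv_apply, norm_star]

lemma vv_cont (e : Fin (k + 1) → ℂ[X]) : Continuous (vv e) := by
  refine (PiLp.continuous_toLp 2 _).comp (continuous_pi fun i => ?_)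
  exact (e i).continuous.star

lemma evf_cont (e : Fin (k + 1) → ℂ[X]) (c : HH k) : Continuous (evf e c) := (pol e c).continuous

lemma BF_cont (e : Fin (k + 1) → ℂ[X]) : Continuous (BF e) := by
  have : BF e = fun z => ‖vv e z‖ ^ 2 := funext fun z => (norm_vv e z).symm
  rw [this]
  exact (vv_cont e).norm.pow 2

lemma BF_nonneg (e : Fin (k + 1) → ℂ[X]) (z : ℂ) : 0 ≤ BF e z :=
  Finset.sum_nonneg fun i _ => sq_nonneg _

include hν he

/-- The coordinates are isometric. -/
lemma evf_inner (c d : HH k) : ∫ z, star (evf e c z) * evf e d z ∂ν = ⟪c, d⟫_ℂ := by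
  have h1 : ∀ z, star (evf e c z) * evf e d z =
      ∑ i, ∑ j, (star (c i) * d j) * (star ((e i).eval z) * (e j).eval z) := by
    intro z
    rw [evf_eq, evf_eq, star_sum, Finset.sum_mul_sum]
    refine Finset.sum_congr rfl fun i _ => Finset.sum_congr rfl fun j _ => ?_
    rw [star_mul']
    ring
  have hi : ∀ i j, Integrable (fun z => (star (c i) * d j) *
      (star ((e i).eval z) * (e j).eval z)) ν := fun i j =>
    (int_cont hν ((e i).continuous.star.mul (e j).continuous)).const_mul _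
  simp only [h1]
  rw [integral_finsetSum _ fun i _ => integrable_finsetSum _ fun j _ => hi i j, PiLp.inner_apply]
  refine Finset.sum_congr rfl fun i _ => ?_
  rw [integral_finsetSum _ fun j _ => hi i j]
  simp only [integral_const_mul, he.orth, mul_ite, mul_one, mul_zero, Finset.sum_ite_eq,
    Finset.mem_univ, if_true]
  simp [mul_comm]

lemma evf_norm (c : HH k) : ∫ z, ‖evf e c z‖ ^ 2 ∂ν = ‖c‖ ^ 2 := by
  have h1 := evf_inner hν he c c
  have h2 : ∀ z, star (evf e c z) * evf e c z = ((‖evf e c z‖ ^ 2 : ℝ) : ℂ) := by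
    intro z
    rw [mul_comm, ← Complex.normSq_eq_norm_sq]
    exact Complex.mul_conj _
  simp only [h2] at h1
  rw [integral_complex_ofReal, inner_self_eq_norm_sq_to_K] at h1
  have h3 : ((∫ z, ‖evf e c z‖ ^ 2 ∂ν : ℝ) : ℂ) = ((‖c‖ ^ 2 : ℝ) : ℂ) := by
    rw [h1]; push_cast; rfl
  exact Complex.ofReal_injective h3

/-- The polynomials of degree at most `k` have coordinates. -/
lemma exists_coord (p : ℂ[X]) (hp : p.natDegree ≤ k) : ∃ c : HH k, pol e c = p := by
  -- the linear map from coordinates to polynomials of degree `≤ k` is injective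
  set L : HH k →ₗ[ℂ] (degreeLT ℂ (k + 1)) :=
    { toFun := fun c => ⟨pol e c, by
        rw [mem_degreeLT, pol]
        refine lt_of_le_of_lt (degree_sum_le _ _) ?_
        refine (Finset.sup_lt_iff (WithBot.bot_lt_coe _)).2 fun i _ => ?_
        refine lt_of_le_of_lt (degree_smul_le _ _) ?_
        refine lt_of_le_of_lt degree_le_natDegree ?_
        exact_mod_cast Nat.lt_succ_of_le (he.deg i)⟩
      map_add' := fun c d => by
        ext1
        simp [pol, add_smul, Finset.sum_add_distrib]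
      map_smul' := fun r c => by
        ext1
        simp [pol, Finset.smul_sum, smul_smul] } with hL
  have hinj : Function.Injective L := by
    rw [← LinearMap.ker_eq_bot, LinearMap.ker_eq_bot']
    intro c hc
    have h1 : pol e c = 0 := congrArg Subtype.val hc
    have h2 := evf_norm hν he c
    have h3 : ∀ z, evf e c z = 0 := fun z => by rw [evf, h1, eval_zero]
    simp only [h3, norm_zero, ne_eq, OfNat.ofNat_ne_zero, not_false_eq_true, zero_pow,
      integral_zero] at h2
    have h4 := pow_eq_zero_iff (two_ne_zero) |>.1 h2.symm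
    exact norm_eq_zero.1 h4
  have hfr : Module.finrank ℂ (HH k) = Module.finrank ℂ (degreeLT ℂ (k + 1)) := by
    rw [finrank_euclideanSpace, Fintype.card_fin, (degreeLTEquiv ℂ (k + 1)).finrank_eq]
    simp
  have : FiniteDimensional ℂ (degreeLT ℂ (k + 1)) :=
    LinearEquiv.finiteDimensional (degreeLTEquiv ℂ (k + 1)).symm
  have hsur : Function.Surjective L :=
    (LinearMap.injective_iff_surjective_of_finrank_eq_finrank hfr).1 hinj
  have hmem : p ∈ degreeLT ℂ (k + 1) := by
    rw [mem_degreeLT]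
    refine lt_of_le_of_lt degree_le_natDegree ?_
    exact_mod_cast Nat.lt_succ_of_le hp
  obtain ⟨c, hc⟩ := hsur ⟨p, hmem⟩
  exact ⟨c, congrArg Subtype.val hc⟩

/-- The extremal property. -/
lemma extremal (p : ℂ[X]) (hp : p.natDegree ≤ k) (z : ℂ) :
    ‖p.eval z‖ ^ 2 ≤ (∫ y, ‖p.eval y‖ ^ 2 ∂ν) * BF e z := by
  obtain ⟨c, rfl⟩ := exists_coord hν he p hp
  have h1 : ∫ y, ‖(pol e c).eval y‖ ^ 2 ∂ν = ‖c‖ ^ 2 := evf_norm hν he c
  have h2 : (pol e c).eval z = ⟪vv e z, c⟫_ℂ := (inner_vv e z c).symm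
  rw [h1, h2, ← norm_vv]
  have h3 := norm_inner_le_norm (𝕜 := ℂ) (vv e z) c
  calc ‖⟪vv e z, c⟫_ℂ‖ ^ 2 ≤ (‖vv e z‖ * ‖c‖) ^ 2 := pow_le_pow_left₀ (norm_nonneg _) h3 2
    _ = ‖c‖ ^ 2 * ‖vv e z‖ ^ 2 := by ring

lemma integral_BF : ∫ z, BF e z ∂ν = k + 1 := by
  have h1 : ∀ i, ∫ z, ‖(e i).eval z‖ ^ 2 ∂ν = 1 := by
    intro i
    have h2 := he.orth i i
    rw [if_pos rfl] at h2
    have h3 : ∀ z, star ((e i).eval z) * (e i).eval z = ((‖(e i).eval z‖ ^ 2 : ℝ) : ℂ) := by
      intro z
      rw [mul_comm, ← Complex.normSq_eq_norm_sq]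
      exact Complex.mul_conj _
    simp only [h3] at h2
    rw [integral_complex_ofReal] at h2
    exact_mod_cast h2
  have hi : ∀ i, Integrable (fun z => ‖(e i).eval z‖ ^ 2) ν := fun i =>
    int_cont hν ((e i).continuous.norm.pow 2)
  simp only [BF]
  rw [integral_finsetSum _ fun i _ => hi i]
  simp [h1]

/-- For a subspace of coordinates: the integral of the squared norm of the projections. -/
lemma integral_proj (S : Submodule ℂ (HH k)) :
    ∫ z, ‖S.starProjection (vv e z)‖ ^ 2 ∂ν = Module.finrank ℂ S := by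
  set b := stdOrthonormalBasis ℂ S with hb
  have h1 : ∀ z, ‖S.starProjection (vv e z)‖ ^ 2 = ∑ i, ‖evf e (b i : HH k) z‖ ^ 2 := by
    intro z
    have h2 : ‖S.starProjection (vv e z)‖ ^ 2 = ‖S.orthogonalProjectionOnto (vv e z)‖ ^ 2 := by
      rw [Submodule.starProjection_apply, Submodule.coe_norm]
    rw [h2, ← b.sum_sq_norm_inner_right]
    refine Finset.sum_congr rfl fun i _ => ?_
    rw [← inner_vv, norm_inner_symm]
    congr 2
    rw [Submodule.inner_orthogonalProjectionOnto_eq_of_mem_right]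
  have hi : ∀ i, Integrable (fun z => ‖evf e (b i : HH k) z‖ ^ 2) ν := fun i =>
    int_cont hν ((evf_cont e _).norm.pow 2)
  simp only [h1]
  rw [integral_finsetSum _ fun i _ => hi i]
  have h3 : ∀ i, ∫ z, ‖evf e (b i : HH k) z‖ ^ 2 ∂ν = 1 := by
    intro i
    rw [evf_norm hν he]
    have := b.orthonormal.1 i
    rw [← Submodule.coe_norm, this, one_pow]
  simp [h3]

end Pool.Agent.Q93.BM
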