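import Pool.Agent.Q93.BM.Hil

set_option autoImplicit false

open MeasureTheory Set Filter Topology Polynomial
open scoped InnerProductSpace ComplexConjugate

namespace Pool.Agent.Q93.BM

/-- The coordinates of the polynomials vanishing on a finite set. -/
noncomputable def Van {k : ℕ} (e : Fin (k + 1) → ℂ[X]) (L : Finset ℂ) : Submodule ℂ (HH k) where
  carrier := {c | ∀ x ∈ L, evf e c x = 0}
  add_mem' := by
    intro c d hc hd x hx
    have h1 : evf e (c + d) x = evf e c x + evf e d x := by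
      simp [evf_eq, add_mul, Finset.sum_add_distrib]
    rw [h1, hc x hx, hd x hx, add_zero]
  zero_mem' := by
    intro x _
    simp [evf_eq]
  smul_mem' := by
    intro r c hc x hx
    have h1 : evf e (r • c) x = r * evf e c x := by
      simp [evf_eq, Finset.mul_sum, mul_assoc]
    rw [h1, hc x hx, mul_zero]

lemma mem_Van {k : ℕ} {e : Fin (k + 1) → ℂ[X]} {L : Finset ℂ} {c : HH k} :
    c ∈ Van e L ↔ ∀ x ∈ L, evf e c x = 0 := Iff.rfl

/-- The dimension of the space of polynomials vanishing on `L`. -/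
lemma finrank_Van {k : ℕ} (e : Fin (k + 1) → ℂ[X]) (L : Finset ℂ) :
    k + 1 ≤ Module.finrank ℂ (Van e L) + L.card := by
  set T : HH k →ₗ[ℂ] (L → ℂ) :=
    { toFun := fun c x => evf e c x
      map_add' := fun c d => by
        funext x
        simp [evf_eq, add_mul, Finset.sum_add_distrib]
      map_smul' := fun r c => by
        funext x
        simp [evf_eq, Finset.mul_sum, mul_assoc] } with hT
  have hker : LinearMap.ker T = Van e L := by
    ext c
    rw [LinearMap.mem_ker, mem_Van]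
    constructor
    · intro hc x hx
      exact congrFun hc ⟨x, hx⟩
    · intro hc
      funext x
      exact hc x x.2
  have h1 := T.finrank_range_add_finrank_ker
  rw [hker, finrank_euclideanSpace, Fintype.card_fin] at h1
  have h2 : Module.finrank ℂ (LinearMap.range T) ≤ L.card := by
    refine (Submodule.finrank_le _).trans ?_
    simp
  omega

/-- The projection part of the Bergman function. -/
noncomputable def BQ {k : ℕ} (e : Fin (k + 1) → ℂ[X]) (L : Finset ℂ) (z : ℂ) : ℝ :=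
  ‖(Van e L).starProjection (vv e z)‖ ^ 2

lemma BQ_le {k : ℕ} (e : Fin (k + 1) → ℂ[X]) (L : Finset ℂ) (z : ℂ) : BQ e L z ≤ BF e z := by
  rw [BQ, ← norm_vv]
  exact pow_le_pow_left₀ (norm_nonneg _) ((Van e L).norm_starProjection_apply_le (vv e z)) 2

lemma BQ_cont {k : ℕ} (e : Fin (k + 1) → ℂ[X]) (L : Finset ℂ) : Continuous (BQ e L) :=
  (((Van e L).starProjection.continuous.comp (vv_cont e)).norm).pow 2

lemma BQ_zero {k : ℕ} (e : Fin (k + 1) → ℂ[X]) (L : Finset ℂ) {x : ℂ} (hx : x ∈ L) :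
    BQ e L x = 0 := by
  have h1 : (Van e L).starProjection (vv e x) = 0 := by
    rw [Submodule.starProjection_apply_eq_zero_iff, Submodule.mem_orthogonal]
    intro c hc
    rw [← inner_conj_symm, inner_vv, hc x hx, map_zero]
  rw [BQ, h1, norm_zero]
  norm_num

/-- The Lagrange polynomials of the roots of unity. -/
noncomputable def lag (N : ℕ) (x : ℂ) : ℂ[X] :=
  ∑ l ∈ Finset.range N, C ((N : ℂ)⁻¹ * (x⁻¹) ^ l) * X ^ l

lemma lag_eval (N : ℕ) (x z : ℂ) :
    (lag N x).eval z = (N : ℂ)⁻¹ * ∑ l ∈ Finset.range N, (x⁻¹ * z) ^ l := by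
  rw [lag, eval_finset_sum, Finset.mul_sum]
  refine Finset.sum_congr rfl fun l _ => ?_
  simp [mul_pow, mul_assoc]

lemma lag_deg (N : ℕ) (hN : 0 < N) (x : ℂ) : (lag N x).natDegree ≤ N - 1 := by
  refine natDegree_sum_le_of_forall_le _ _ fun l hl => ?_
  refine (natDegree_C_mul_X_pow_le _ _).trans ?_
  have := Finset.mem_range.1 hl
  omega

lemma norm_of_mem {N : ℕ} (hN : 0 < N) {x : ℂ} (hx : x ∈ nthRootsFinset N (1 : ℂ)) : ‖x‖ = 1 :=
  Complex.norm_eq_one_of_pow_eq_one ((mem_nthRootsFinset hN 1).1 hx) hN.ne'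

lemma lag_norm {N : ℕ} (hN : 0 < N) {x z : ℂ} (hx : ‖x‖ = 1) (hz : ‖z‖ = 1) :
    ‖(lag N x).eval z‖ ≤ 1 := by
  rw [lag_eval, norm_mul, norm_inv, Complex.norm_natCast]
  have h1 : ‖∑ l ∈ Finset.range N, (x⁻¹ * z) ^ l‖ ≤ N := by
    refine (norm_sum_le _ _).trans ?_
    have : ∀ l ∈ Finset.range N, ‖(x⁻¹ * z) ^ l‖ ≤ 1 := fun l _ => by
      rw [norm_pow, norm_mul, norm_inv, hx, hz]; norm_num
    refine (Finset.sum_le_sum this).trans ?_
    simp
  have hN' : (0 : ℝ) < N := by exact_mod_cast hN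
  calc (N : ℝ)⁻¹ * ‖∑ l ∈ Finset.range N, (x⁻¹ * z) ^ l‖ ≤ (N : ℝ)⁻¹ * N :=
        mul_le_mul_of_nonneg_left h1 (by positivity)
    _ = 1 := inv_mul_cancel₀ hN'.ne'

lemma geom_zero {N : ℕ} {y : ℂ} (hy : y ^ N = 1) (hy1 : y ≠ 1) :
    ∑ l ∈ Finset.range N, y ^ l = 0 := by
  have h1 := geom_sum_mul y N
  rw [hy, sub_self] at h1
  rcases mul_eq_zero.1 h1 with h2 | h2
  · exact h2
  · exact absurd (sub_eq_zero.1 h2) hy1

lemma lag_self {N : ℕ} (hN : 0 < N) {x : ℂ} (hx : x ≠ 0) : (lag N x).eval x = 1 := by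
  rw [lag_eval, inv_mul_cancel₀ hx]
  have hN' : (N : ℂ) ≠ 0 := by exact_mod_cast hN.ne'
  simp [hN']

lemma lag_other {N : ℕ} (hN : 0 < N) {x y : ℂ} (hx : x ∈ nthRootsFinset N (1 : ℂ))
    (hy : y ∈ nthRootsFinset N (1 : ℂ)) (hxy : y ≠ x) : (lag N x).eval y = 0 := by
  have hx1 := (mem_nthRootsFinset hN 1).1 hx
  have hy1 := (mem_nthRootsFinset hN 1).1 hy
  have hx0 : x ≠ 0 := by
    rintro rfl
    rw [zero_pow hN.ne'] at hx1
    exact zero_ne_one hx1
  rw [lag_eval, geom_zero, mul_zero]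
  · rw [mul_pow, inv_pow, hx1, hy1]; norm_num
  · intro hc
    apply hxy
    field_simp at hc
    exact hc

variable {ν : Measure ℂ} [hfin : IsFiniteMeasure ν] (hν : ν (Metric.sphere (0 : ℂ) 1)ᶜ = 0)
  {k : ℕ} {e : Fin (k + 1) → ℂ[X]} (he : IsONB ν k e)

/-- Splitting of an integral over a finite set and its complement. -/
lemma split_int {F : Type*} [NormedAddCommGroup F] [NormedSpace ℝ F] [CompleteSpace F]
    (L : Finset ℂ) {f : ℂ → F} (hf : Integrable f ν) :
    ∫ z, f z ∂ν = ∑ x ∈ L, ν.real {x} • f x + ∫ z in (L : Set ℂ)ᶜ, f z ∂ν := by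
  rw [← integral_add_compl L.measurableSet hf, integral_finset L hf.integrableOn]

include hν he

/-- The atoms: `ν{x} B(x) ≤ 1`. -/
lemma atom_le (x : ℂ) : ν.real {x} * BF e x ≤ 1 := by
  have h1 := evf_norm hν he (vv e x)
  have h2 : evf e (vv e x) x = ((BF e x : ℝ) : ℂ) := by
    rw [← inner_vv, inner_self_eq_norm_sq_to_K, ← norm_vv]
    push_cast; rfl
  have hi : Integrable (fun z => ‖evf e (vv e x) z‖ ^ 2) ν :=
    int_cont hν ((evf_cont e _).norm.pow 2)
  have h3 := split_int {x} hi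
  rw [h1, Finset.sum_singleton, h2, Complex.norm_real, Real.norm_eq_abs, sq_abs, norm_vv,
    smul_eq_mul] at h3
  have h4 : 0 ≤ ∫ z in (({x} : Finset ℂ) : Set ℂ)ᶜ, ‖evf e (vv e x) z‖ ^ 2 ∂ν :=
    integral_nonneg fun z => sq_nonneg _
  have h5 : ν.real {x} * BF e x ^ 2 ≤ BF e x := by linarith
  rcases (BF_nonneg e x).eq_or_lt with h6 | h6
  · rw [← h6]; norm_num
  · have h7 : ν.real {x} * BF e x * BF e x ≤ 1 * BF e x := by
      rw [one_mul]; calc _ = ν.real {x} * BF e x ^ 2 := by ring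
        _ ≤ _ := h5
    exact le_of_mul_le_mul_right h7 h6

/-- The atoms: lower bound. -/
lemma atom_ge {N : ℕ} (hN : 0 < N) (hNk : N ≤ k + 1) {w δ : ℝ} (hw : 0 < w)
    (h1 : ∀ x ∈ nthRootsFinset N (1 : ℂ), w ≤ ν.real {x})
    (h2 : ν.real ((nthRootsFinset N (1 : ℂ) : Set ℂ)ᶜ) ≤ δ) {x : ℂ}
    (hx : x ∈ nthRootsFinset N (1 : ℂ)) : 1 - δ / w ≤ ν.real {x} * BF e x := by
  have hx1 := norm_of_mem hN hx
  have hx0 : x ≠ 0 := by
    intro hc; rw [hc, norm_zero] at hx1; exact zero_ne_one hx1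
  have hδ : 0 ≤ δ := le_trans measureReal_nonneg h2
  have hext := extremal hν he (lag N x) ((lag_deg N hN x).trans (by omega)) x
  rw [lag_self hN hx0, norm_one, one_pow] at hext
  have hi : Integrable (fun z => ‖(lag N x).eval z‖ ^ 2) ν :=
    int_cont hν ((lag N x).continuous.norm.pow 2)
  have h3 := split_int (nthRootsFinset N (1 : ℂ)) hi
  have h4 : ∑ y ∈ nthRootsFinset N (1 : ℂ), ν.real {y} • ‖(lag N x).eval y‖ ^ 2 = ν.real {x} := by
    rw [Finset.sum_eq_single x]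
    · rw [lag_self hN hx0]; simp
    · intro y hy hyx
      rw [lag_other hN hx hy hyx]; simp
    · intro hc; exact absurd hx hc
  have h5 : ∫ z in (nthRootsFinset N (1 : ℂ) : Set ℂ)ᶜ, ‖(lag N x).eval z‖ ^ 2 ∂ν ≤ δ := by
    have h6 : ∀ᵐ z ∂(ν.restrict (nthRootsFinset N (1 : ℂ) : Set ℂ)ᶜ),
        ‖(lag N x).eval z‖ ^ 2 ≤ 1 := by
      refine ae_restrict_of_ae ?_
      have h7 : ∀ᵐ z ∂ν, z ∈ Metric.sphere (0 : ℂ) 1 := by rw [ae_iff]; exact hν
      filter_upwards [h7] with z hz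
      have hz1 : ‖z‖ = 1 := by simpa using hz
      exact pow_le_one₀ (norm_nonneg _) (lag_norm hN hx1 hz1)
    calc ∫ z in (nthRootsFinset N (1 : ℂ) : Set ℂ)ᶜ, ‖(lag N x).eval z‖ ^ 2 ∂ν
        ≤ ∫ z in (nthRootsFinset N (1 : ℂ) : Set ℂ)ᶜ, (1 : ℝ) ∂ν :=
          integral_mono_ae hi.integrableOn (integrable_const _) h6
      _ = ν.real ((nthRootsFinset N (1 : ℂ) : Set ℂ)ᶜ) := by simp
      _ ≤ δ := h2
  rw [h3, h4] at hext
  have hwx := h1 x hx
  have hB := BF_nonneg e x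
  have h6 : 1 ≤ (ν.real {x} + δ) * BF e x := by
    refine hext.trans (mul_le_mul_of_nonneg_right ?_ hB)
    linarith
  have h7 : ν.real {x} * BF e x ≤ 1 := atom_le hν he x
  have h8 : BF e x ≤ 1 / w := by
    rw [le_div_iff₀ hw]
    nlinarith
  have h9 : δ * BF e x ≤ δ / w := by
    calc δ * BF e x ≤ δ * (1 / w) := mul_le_mul_of_nonneg_left h8 hδ
      _ = δ / w := by ring
  nlinarith

/-- Rotation invariance of the projection part. -/
lemma BQ_rot_le {N : ℕ} (hN : 0 < N)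
    (hrot : ∀ w ∈ nthRootsFinset N (1 : ℂ), ∀ f : ℂ → ℂ, Continuous f →
      (∀ x ∈ nthRootsFinset N (1 : ℂ), f x = 0) → ∫ z, f (w * z) ∂ν = ∫ z, f z ∂ν)
    {w : ℂ} (hw : w ∈ nthRootsFinset N (1 : ℂ)) (z : ℂ) :
    BQ e (nthRootsFinset N (1 : ℂ)) (w * z) ≤ BQ e (nthRootsFinset N (1 : ℂ)) z := by
  set L := nthRootsFinset N (1 : ℂ) with hL
  set S := Van e L with hS
  set q : HH k := S.starProjection (vv e (w * z)) with hq
  have hqS : q ∈ S := S.starProjection_apply_mem _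
  -- the rotated polynomial
  have hdeg : ((pol e q).comp (C w * X)).natDegree ≤ k := by
    refine (natDegree_comp_le).trans ?_
    have h1 : (pol e q).natDegree ≤ k := by
      refine natDegree_sum_le_of_forall_le _ _ fun i _ => ?_
      exact (natDegree_smul_le _ _).trans (he.deg i)
    have h2 : (C w * X : ℂ[X]).natDegree ≤ 1 := by
      simpa using natDegree_C_mul_X_pow_le w 1
    calc (pol e q).natDegree * (C w * X : ℂ[X]).natDegree ≤ k * 1 := Nat.mul_le_mul h1 h2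
      _ = k := mul_one k
  obtain ⟨t, ht⟩ := exists_coord hν he _ hdeg
  have htev : ∀ y, evf e t y = evf e q (w * y) := by
    intro y
    rw [evf, ht, eval_comp, evf]
    simp
  have hmul : ∀ x ∈ L, w * x ∈ L := by
    intro x hx
    rw [hL, mem_nthRootsFinset hN] at hx hw ⊢
    rw [mul_pow, hx, hw, one_mul]
  have htS : t ∈ S := by
    intro x hx
    rw [htev]
    exact hqS _ (hmul x hx)
  have hnorm : ‖t‖ = ‖q‖ := by
    have h1 : ‖t‖ ^ 2 = ‖q‖ ^ 2 := by
      rw [← evf_norm hν he, ← evf_norm hν he]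
      have h2 := hrot w hw (fun y => ((‖evf e q y‖ ^ 2 : ℝ) : ℂ))
        (Complex.continuous_ofReal.comp ((evf_cont e q).norm.pow 2))
        (fun x hx => by rw [hqS x hx]; simp)
      simp only [← htev] at h2
      rw [integral_complex_ofReal, integral_complex_ofReal] at h2
      exact_mod_cast h2
    exact (sq_eq_sq₀ (norm_nonneg _) (norm_nonneg _)).1 h1
  have h1 : ((‖q‖ ^ 2 : ℝ) : ℂ) = ⟪S.starProjection (vv e z), t⟫_ℂ := by
    have h2 : ⟪q, q⟫_ℂ = ⟪vv e (w * z), q⟫_ℂ := by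
      conv_lhs => rw [hq, Submodule.inner_starProjection_left_eq_right,
        Submodule.starProjection_eq_self_iff.2 hqS]
    have h3 : ⟪S.starProjection (vv e z), t⟫_ℂ = ⟪vv e z, t⟫_ℂ := by
      rw [Submodule.inner_starProjection_left_eq_right, Submodule.starProjection_eq_self_iff.2 htS]
    rw [h3, inner_vv, htev, ← inner_vv, ← h2, inner_self_eq_norm_sq_to_K]
    push_cast; rfl
  have h2 : ‖q‖ ^ 2 ≤ ‖S.starProjection (vv e z)‖ * ‖q‖ := by
    have h3 := norm_inner_le_norm (𝕜 := ℂ) (S.starProjection (vv e z)) t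
    rw [← h1, Complex.norm_real, Real.norm_eq_abs, abs_of_nonneg (sq_nonneg _), hnorm] at h3
    exact h3
  have h3 : ‖q‖ ≤ ‖S.starProjection (vv e z)‖ := by
    rcases (norm_nonneg q).eq_or_lt with h4 | h4
    · rw [← h4]; exact norm_nonneg _
    · rw [pow_two] at h2
      exact le_of_mul_le_mul_right h2 h4
  exact pow_le_pow_left₀ (norm_nonneg _) h3 2

lemma BQ_rot {N : ℕ} (hN : 0 < N)
    (hrot : ∀ w ∈ nthRootsFinset N (1 : ℂ), ∀ f : ℂ → ℂ, Continuous f →
      (∀ x ∈ nthRootsFinset N (1 : ℂ), f x = 0) → ∫ z, f (w * z) ∂ν = ∫ z, f z ∂ν)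
    {w : ℂ} (hw : w ∈ nthRootsFinset N (1 : ℂ)) (z : ℂ) :
    BQ e (nthRootsFinset N (1 : ℂ)) (w * z) = BQ e (nthRootsFinset N (1 : ℂ)) z := by
  refine le_antisymm (BQ_rot_le hν he hN hrot hw z) ?_
  have hw1 := (mem_nthRootsFinset hN 1).1 hw
  have hw0 : w ≠ 0 := by
    rintro rfl
    rw [zero_pow hN.ne'] at hw1
    exact zero_ne_one hw1
  have hwi : w⁻¹ ∈ nthRootsFinset N (1 : ℂ) := by
    rw [mem_nthRootsFinset hN, inv_pow, hw1, inv_one]
  have := BQ_rot_le hν he hN hrot hwi (w * z)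
  rwa [inv_mul_cancel_left₀ hw0] at this

/-- The moments of the projection part vanish. -/
lemma BQ_moment {N : ℕ} (hN : 0 < N)
    (hrot : ∀ w ∈ nthRootsFinset N (1 : ℂ), ∀ f : ℂ → ℂ, Continuous f →
      (∀ x ∈ nthRootsFinset N (1 : ℂ), f x = 0) → ∫ z, f (w * z) ∂ν = ∫ z, f z ∂ν)
    {m : ℕ} (hm0 : 0 < m) (hmN : m < N) :
    ∫ z, z ^ m * (BQ e (nthRootsFinset N (1 : ℂ)) z : ℂ) ∂ν = 0 := by
  set w : ℂ := Complex.exp (2 * Real.pi * Complex.I / N) with hw
  have hprim : IsPrimitiveRoot w N := Complex.isPrimitiveRoot_exp N hN.ne'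
  have hwL : w ∈ nthRootsFinset N (1 : ℂ) := hprim.mem_nthRootsFinset hN
  have h1 := hrot w hwL (fun z => z ^ m * (BQ e (nthRootsFinset N (1 : ℂ)) z : ℂ))
    ((continuous_id.pow m).mul (Complex.continuous_ofReal.comp (BQ_cont e _)))
    (fun x hx => by rw [BQ_zero e _ hx]; simp)
  simp only [BQ_rot hν he hN hrot hwL, mul_pow, mul_assoc] at h1
  rw [integral_const_mul] at h1
  have h2 : w ^ m ≠ 1 := hprim.pow_ne_one_of_pos_of_lt hm0.ne' hmN
  set I := ∫ z, z ^ m * (BQ e (nthRootsFinset N (1 : ℂ)) z : ℂ) ∂ν with hI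
  have h3 : (w ^ m - 1) * I = 0 := by rw [sub_mul, h1]; ring
  rcases mul_eq_zero.1 h3 with h4 | h4
  · exact absurd (sub_eq_zero.1 h4) h2
  · exact h4

/-- **The moment bound.** -/
theorem moment {N : ℕ} (hN : 0 < N) (hNk : N ≤ k + 1) {w δ : ℝ} (hw : 0 < w)
    (h1 : ∀ x ∈ nthRootsFinset N (1 : ℂ), w ≤ ν.real {x})
    (h2 : ν.real ((nthRootsFinset N (1 : ℂ) : Set ℂ)ᶜ) ≤ δ)
    (hrot : ∀ w ∈ nthRootsFinset N (1 : ℂ), ∀ f : ℂ → ℂ, Continuous f →
      (∀ x ∈ nthRootsFinset N (1 : ℂ), f x = 0) → ∫ z, f (w * z) ∂ν = ∫ z, f z ∂ν)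
    {m : ℕ} (hm0 : 0 < m) (hmN : m < N) :
    ‖∫ z, z ^ m * (BF e z : ℂ) ∂ν‖ ≤ 2 * N * (δ / w) := by
  set L := nthRootsFinset N (1 : ℂ) with hL
  have hcard : L.card = N := (Complex.isPrimitiveRoot_exp N hN.ne').card_nthRootsFinset
  set BR : ℂ → ℝ := fun z => BF e z - BQ e L z with hBR
  have hBRc : Continuous BR := (BF_cont e).sub (BQ_cont e L)
  have hBR0 : ∀ z, 0 ≤ BR z := fun z => sub_nonneg.2 (BQ_le e L z)
  have hBRL : ∀ x ∈ L, BR x = BF e x := fun x hx => by simp only [hBR]; rw [BQ_zero e L hx, sub_zero]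
  have hiF := int_cont hν (BF_cont e)
  have hiQ := int_cont hν (BQ_cont e L)
  have hiR := int_cont hν hBRc
  have hzm : Continuous fun z : ℂ => z ^ m := continuous_id.pow m
  have hiQm : Integrable (fun z => z ^ m * (BQ e L z : ℂ)) ν :=
    int_cont hν (hzm.mul (Complex.continuous_ofReal.comp (BQ_cont e L)))
  have hiRm : Integrable (fun z => z ^ m * (BR z : ℂ)) ν :=
    int_cont hν (hzm.mul (Complex.continuous_ofReal.comp hBRc))
  have hsum : ∫ z, z ^ m * (BF e z : ℂ) ∂ν = ∫ z, z ^ m * (BR z : ℂ) ∂ν := by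
    have h3 : ∀ z, z ^ m * (BF e z : ℂ) = z ^ m * (BQ e L z : ℂ) + z ^ m * (BR z : ℂ) := by
      intro z; simp only [hBR]; push_cast; ring
    simp only [h3]
    rw [integral_add hiQm hiRm, BQ_moment hν he hN hrot hm0 hmN, zero_add]
  -- the mass of `BR` outside `L`
  have hout : ∫ z in (L : Set ℂ)ᶜ, BR z ∂ν ≤ N * (δ / w) := by
    have h3 := split_int L hiR
    have h4 : ∫ z, BR z ∂ν = (k + 1) - Module.finrank ℂ (Van e L) := by
      simp only [hBR]
      rw [integral_sub hiF hiQ, integral_BF hν he]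
      congr 1
      exact integral_proj hν he (Van e L)
    have h5 : (k : ℝ) + 1 ≤ Module.finrank ℂ (Van e L) + N := by
      have := finrank_Van e L
      rw [hcard] at this
      exact_mod_cast this
    have h6 : (N : ℝ) * (1 - δ / w) ≤ ∑ x ∈ L, ν.real {x} • BR x := by
      have : ∑ x ∈ L, (1 - δ / w) = N * (1 - δ / w) := by
        rw [Finset.sum_const, hcard, nsmul_eq_mul]
      rw [← this]
      refine Finset.sum_le_sum fun x hx => ?_
      rw [hBRL x hx, smul_eq_mul]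
      exact atom_ge hν he hN hNk hw h1 h2 hx
    rw [h4] at h3
    nlinarith
  -- the sum over the atoms
  have hat : ‖∑ x ∈ L, ν.real {x} • (x ^ m * (BR x : ℂ))‖ ≤ N * (δ / w) := by
    have h3 : ∑ x ∈ L, x ^ m = 0 := by
      set ζ : ℂ := Complex.exp (2 * Real.pi * Complex.I / N) with hζ
      have hprim : IsPrimitiveRoot ζ N := Complex.isPrimitiveRoot_exp N hN.ne'
      have hζL : ζ ∈ L := hprim.mem_nthRootsFinset hN
      have hζ0 : ζ ≠ 0 := Complex.exp_ne_zero _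
      have h4 : ∑ x ∈ L, (ζ * x) ^ m = ∑ x ∈ L, x ^ m := by
        refine Finset.sum_nbij' (fun x => ζ * x) (fun x => ζ⁻¹ * x) ?_ ?_ ?_ ?_ ?_
        · intro x hx
          rw [hL, mem_nthRootsFinset hN] at hx hζL ⊢
          rw [mul_pow, hx, hζL, one_mul]
        · intro x hx
          rw [hL, mem_nthRootsFinset hN] at hx hζL ⊢
          rw [mul_pow, hx, inv_pow, hζL, inv_one, one_mul]
        · intro x _; exact inv_mul_cancel_left₀ hζ0 x
        · intro x _; exact mul_inv_cancel_left₀ hζ0 x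
        · intro x _; rfl
      simp only [mul_pow] at h4
      rw [← Finset.mul_sum] at h4
      have h5 : (ζ ^ m - 1) * ∑ x ∈ L, x ^ m = 0 := by rw [sub_mul, h4]; ring
      rcases mul_eq_zero.1 h5 with h6 | h6
      · exact absurd (sub_eq_zero.1 h6) (hprim.pow_ne_one_of_pos_of_lt hm0.ne' hmN)
      · exact h6
    have h4 : ∑ x ∈ L, ν.real {x} • (x ^ m * (BR x : ℂ)) =
        ∑ x ∈ L, x ^ m * (((ν.real {x} * BF e x - 1 : ℝ)) : ℂ) := by
      have h5 : ∑ x ∈ L, x ^ m * (((ν.real {x} * BF e x - 1 : ℝ)) : ℂ) =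
          ∑ x ∈ L, (x ^ m * (((ν.real {x} * BF e x : ℝ)) : ℂ)) - ∑ x ∈ L, x ^ m := by
        rw [← Finset.sum_sub_distrib]
        refine Finset.sum_congr rfl fun x _ => ?_
        push_cast; ring
      rw [h5, h3, sub_zero]
      refine Finset.sum_congr rfl fun x hx => ?_
      rw [hBRL x hx, Complex.real_smul]
      push_cast; ring
    rw [h4]
    refine (norm_sum_le _ _).trans ?_
    have h5 : ∀ x ∈ L, ‖x ^ m * (((ν.real {x} * BF e x - 1 : ℝ)) : ℂ)‖ ≤ δ / w := by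
      intro x hx
      rw [norm_mul, norm_pow, norm_of_mem hN hx, one_pow, one_mul, Complex.norm_real,
        Real.norm_eq_abs, abs_le]
      have h6 := atom_ge hν he hN hNk hw h1 h2 hx
      have h7 := atom_le hν he x
      have h8 : 0 ≤ δ / w := div_nonneg (le_trans measureReal_nonneg h2) hw.le
      constructor <;> linarith
    refine (Finset.sum_le_sum h5).trans ?_
    rw [Finset.sum_const, hcard, nsmul_eq_mul]
  have hcomp : ‖∫ z in (L : Set ℂ)ᶜ, z ^ m * (BR z : ℂ) ∂ν‖ ≤ N * (δ / w) := by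
    refine (norm_integral_le_integral_norm _).trans ?_
    refine le_trans (le_of_eq ?_) hout
    refine integral_congr_ae ?_
    refine ae_restrict_of_ae ?_
    have h7 : ∀ᵐ z ∂ν, z ∈ Metric.sphere (0 : ℂ) 1 := by rw [ae_iff]; exact hν
    filter_upwards [h7] with z hz
    have hz1 : ‖z‖ = 1 := by simpa using hz
    rw [norm_mul, norm_pow, hz1, one_pow, one_mul, Complex.norm_real, Real.norm_eq_abs,
      abs_of_nonneg (hBR0 z)]
  rw [hsum, split_int L hiRm]
  refine (norm_add_le _ _).trans ?_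
  calc _ ≤ N * (δ / w) + N * (δ / w) := add_le_add hat hcomp
    _ = 2 * N * (δ / w) := by ring

end Pool.Agent.Q93.BM
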